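import Mathlib
import Pool.Agent.Helper35.AG.Basic
import Pool.Agent.Helper58.FH.Basic

/-!
# Additive growth: the zoom lemma

If conditioning `Y` on every event of probability at least `g` changes the law of the dyadic cell of
`X + Y` by at most `ξ`, where `X` has a law invariant under doubling with a nonzero Fourier coefficient
of order `m`, then `e (m 2 ^ i Y)` is concentrated near one value, for all `i` well below `K`.
-/

set_option autoImplicit false
open MeasureTheory Filter Topology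

namespace Helper25.AG

open Helper35.AG
open Helper58.FH (norm_fourier fourier_add_arg fourier_lip)

theorem preserving_two_pow {μ : Measure Tor}
    (h2 : MeasurePreserving (fun x : Tor => (2 : ℕ) • x) μ μ) (i : ℕ) :
    MeasurePreserving (fun x : Tor => (2 ^ i : ℕ) • x) μ μ := by
  induction i with
  | zero =>
    have e : (fun x : Tor => (2 ^ 0 : ℕ) • x) = id := by
      funext x
      simp
    rw [e]
    exact MeasurePreserving.id μ
  | succ i ih =>
    have e : (fun x : Tor => (2 ^ (i + 1) : ℕ) • x) =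
        (fun x : Tor => (2 : ℕ) • x) ∘ fun x : Tor => (2 ^ i : ℕ) • x := by
      funext x
      show (2 ^ (i + 1) : ℕ) • x = (2 : ℕ) • (2 ^ i : ℕ) • x
      rw [← mul_smul, pow_succ']
    rw [e]
    exact h2.comp ih

/-- a point of the cell of index `j` -/
noncomputable def rep (K j : ℕ) : Tor := (((j : ℝ) / 2 ^ K : ℝ) : Tor)

theorem idx_rep (K j : ℕ) (hj : j < 2 ^ K) : idx K (rep K j) = j := by
  have h2 : (0 : ℝ) < 2 ^ K := by positivity
  have hj' : (j : ℝ) < 2 ^ K := by exact_mod_cast hj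
  unfold rep
  rw [idx_coe K (by positivity) (by rw [div_lt_one h2]; exact hj')]
  have : (2 : ℝ) ^ K * ((j : ℝ) / 2 ^ K) = (j : ℝ) := by field_simp
  rw [this, Nat.floor_natCast]

/-- a character at scale `2 ^ (-i)` is almost constant on the cells of level `K`, `i + R ≤ K` -/
theorem char_cell (m : ℤ) (K i R : ℕ) (hi : i + R ≤ K) (z : Tor) :
    ‖(fourier m ((2 ^ i : ℕ) • z) : ℂ) - fourier m ((2 ^ i : ℕ) • rep K (idx K z))‖ ≤
      2 * Real.pi * |(m : ℝ)| / 2 ^ R := by
  have h1 : idx K z = idx K (rep K (idx K z)) := (idx_rep K _ (idx_lt K z)).symm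
  have h2 := norm_sub_le_of_idx h1
  have h3 := fourier_lip m ((2 ^ i : ℕ) • z) ((2 ^ i : ℕ) • rep K (idx K z))
  have h4 : ‖(2 ^ i : ℕ) • z - (2 ^ i : ℕ) • rep K (idx K z)‖ ≤ 2 ^ i * (1 / 2 ^ K) := by
    rw [← smul_sub]
    refine (norm_nsmul_le).trans ?_
    push_cast
    exact mul_le_mul_of_nonneg_left h2 (by positivity)
  have h5 : (2 : ℝ) ^ i * (1 / 2 ^ K) ≤ 1 / 2 ^ R := by
    rw [mul_one_div, div_le_div_iff₀ (by positivity) (by positivity), one_mul, ← pow_add]
    exact pow_le_pow_right₀ (by norm_num) hi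
  have h6 : (0 : ℝ) ≤ 2 * Real.pi * |(m : ℝ)| := by positivity
  push_cast at h3
  calc ‖(fourier m ((2 ^ i : ℕ) • z) : ℂ) - fourier m ((2 ^ i : ℕ) • rep K (idx K z))‖
      ≤ 2 * Real.pi * |(m : ℝ)| * ‖(2 ^ i : ℕ) • z - (2 ^ i : ℕ) • rep K (idx K z)‖ := h3
    _ ≤ 2 * Real.pi * |(m : ℝ)| * (1 / 2 ^ R) :=
        mul_le_mul_of_nonneg_left (h4.trans h5) h6
    _ = _ := by ring

theorem measurableSet_cell_add (K j : ℕ) (y : Tor) : MeasurableSet {x : Tor | idx K (x + y) = j} :=
  (measurableSet_idx K j).preimage (measurable_add_const y)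

/-- the mean of a function of the cell -/
theorem integral_cell (μ : Measure Tor) [IsProbabilityMeasure μ] (K : ℕ) (y : Tor) (c : ℕ → ℂ) :
    ∫ x, c (idx K (x + y)) ∂μ =
      ∑ j ∈ Finset.range (2 ^ K), (μ.real {x | idx K (x + y) = j} : ℂ) * c j := by
  have e : ∀ x : Tor, c (idx K (x + y)) = ∑ j ∈ Finset.range (2 ^ K),
      ({x : Tor | idx K (x + y) = j}.indicator (fun _ => c j) x) := by
    intro x
    rw [Finset.sum_eq_single_of_mem (idx K (x + y)) (Finset.mem_range.2 (idx_lt K _))]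
    · rw [Set.indicator_of_mem]
      rfl
    · intro j _ hj
      rw [Set.indicator_of_notMem]
      intro h
      exact hj h.symm
  simp_rw [e]
  rw [integral_finsetSum _ fun j _ => (integrable_const (c j)).indicator (measurableSet_cell_add K j y)]
  refine Finset.sum_congr rfl fun j _ => ?_
  rw [integral_indicator_const _ (measurableSet_cell_add K j y)]
  simp [Complex.real_smul]

theorem measurable_char (m : ℤ) (i : ℕ) : Measurable fun y : Tor => (fourier m ((2 ^ i : ℕ) • y) : ℂ) :=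
  ((fourier m).continuous.comp (continuous_const_smul _)).measurable

theorem integrable_char (m : ℤ) (i : ℕ) (ν : Measure Tor) [IsProbabilityMeasure ν] :
    Integrable (fun y : Tor => (fourier m ((2 ^ i : ℕ) • y) : ℂ)) ν :=
  Integrable.of_bound (measurable_char m i).aestronglyMeasurable 1
    (Eventually.of_forall fun y => (norm_fourier m _).le)

/-- The mean of the character at `X + Y`, up to the oscillation on the cells, is a linear function
of the law of the cell. -/
theorem mean_close {μ : Measure Tor} [IsProbabilityMeasure μ]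
    (h2 : MeasurePreserving (fun x : Tor => (2 : ℕ) • x) μ μ) (m : ℤ) (K i R : ℕ)
    (hi : i + R ≤ K) (la : Measure Tor) [IsProbabilityMeasure la] :
    ‖(∫ x, (fourier m x : ℂ) ∂μ) * (∫ y, (fourier m ((2 ^ i : ℕ) • y) : ℂ) ∂la) -
      ∑ j ∈ Finset.range (2 ^ K), ((∫ y, μ.real {x | idx K (x + y) = j} ∂la : ℝ) : ℂ) *
        fourier m ((2 ^ i : ℕ) • rep K j)‖ ≤ 2 * Real.pi * |(m : ℝ)| / 2 ^ R := by
  have e0 : ∫ x, (fourier m ((2 ^ i : ℕ) • x) : ℂ) ∂μ = ∫ x, (fourier m x : ℂ) ∂μ := by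
    have h := preserving_two_pow h2 i
    have h3 : ∫ x, (fourier m x : ℂ) ∂(μ.map fun x : Tor => (2 ^ i : ℕ) • x) =
        ∫ x, (fourier m ((2 ^ i : ℕ) • x) : ℂ) ∂μ :=
      integral_map h.measurable.aemeasurable (fourier m).continuous.aestronglyMeasurable
    rw [← h3, h.map_eq]
  have e1 : (∫ x, (fourier m x : ℂ) ∂μ) * (∫ y, (fourier m ((2 ^ i : ℕ) • y) : ℂ) ∂la) =
      ∫ y, (∫ x, (fourier m ((2 ^ i : ℕ) • (x + y)) : ℂ) ∂μ) ∂la := by
    rw [← e0, ← integral_const_mul]
    refine integral_congr_ae (Eventually.of_forall fun y => ?_)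
    show (∫ x, (fourier m ((2 ^ i : ℕ) • x) : ℂ) ∂μ) * (fourier m ((2 ^ i : ℕ) • y) : ℂ) =
      ∫ x, (fourier m ((2 ^ i : ℕ) • (x + y)) : ℂ) ∂μ
    rw [← integral_mul_const]
    refine integral_congr_ae (Eventually.of_forall fun x => ?_)
    show (fourier m ((2 ^ i : ℕ) • x) : ℂ) * (fourier m ((2 ^ i : ℕ) • y) : ℂ) =
      (fourier m ((2 ^ i : ℕ) • (x + y)) : ℂ)
    rw [smul_add, fourier_add_arg]
  have hp : ∀ j, Integrable (fun y : Tor => ((μ.real {x | idx K (x + y) = j} : ℝ) : ℂ)) la := by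
    intro j
    refine Integrable.of_bound (C := 1)
      (Complex.measurable_ofReal.comp (measurable_real μ (measurableSet_idx K j))).aestronglyMeasurable
      (Eventually.of_forall fun y => ?_)
    rw [Complex.norm_real, Real.norm_eq_abs, abs_of_nonneg measureReal_nonneg]
    exact measureReal_le_one
  have e2 : ∑ j ∈ Finset.range (2 ^ K), ((∫ y, μ.real {x | idx K (x + y) = j} ∂la : ℝ) : ℂ) *
        fourier m ((2 ^ i : ℕ) • rep K j) =
      ∫ y, (∫ x, (fourier m ((2 ^ i : ℕ) • rep K (idx K (x + y))) : ℂ) ∂μ) ∂la := by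
    have e3 : ∀ y : Tor, ∫ x, (fourier m ((2 ^ i : ℕ) • rep K (idx K (x + y))) : ℂ) ∂μ =
        ∑ j ∈ Finset.range (2 ^ K), (μ.real {x | idx K (x + y) = j} : ℂ) *
          (fourier m ((2 ^ i : ℕ) • rep K j) : ℂ) := fun y =>
      integral_cell μ K y fun j => (fourier m ((2 ^ i : ℕ) • rep K j) : ℂ)
    simp_rw [e3]
    rw [integral_finsetSum _ fun j _ => (hp j).mul_const _]
    refine Finset.sum_congr rfl fun j _ => ?_
    rw [integral_mul_const, integral_complex_ofReal]
  have hF : Measurable fun p : Tor × Tor => (fourier m ((2 ^ i : ℕ) • (p.2 + p.1)) : ℂ) :=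
    (measurable_char m i).comp (measurable_snd.add measurable_fst)
  have hG : Measurable fun p : Tor × Tor =>
      (fourier m ((2 ^ i : ℕ) • rep K (idx K (p.2 + p.1))) : ℂ) := by
    have h1 : Measurable fun p : Tor × Tor => idx K (p.2 + p.1) :=
      (measurable_idx K).comp (measurable_snd.add measurable_fst)
    exact (measurable_from_nat (f := fun j : ℕ => (fourier m ((2 ^ i : ℕ) • rep K j) : ℂ))).comp h1
  have hF1 : Integrable (fun y : Tor => ∫ x, (fourier m ((2 ^ i : ℕ) • (x + y)) : ℂ) ∂μ) la := by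
    refine Integrable.of_bound (C := 1) ?_ (Eventually.of_forall fun y => ?_)
    · exact (hF.stronglyMeasurable.integral_prod_right).aestronglyMeasurable
    · exact (norm_integral_le_of_norm_le_const (Eventually.of_forall fun x =>
        (norm_fourier m _).le)).trans (by simp)
  have hG1 : Integrable (fun y : Tor =>
      ∫ x, (fourier m ((2 ^ i : ℕ) • rep K (idx K (x + y))) : ℂ) ∂μ) la := by
    refine Integrable.of_bound (C := 1) ?_ (Eventually.of_forall fun y => ?_)
    · exact (hG.stronglyMeasurable.integral_prod_right).aestronglyMeasurable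
    · exact (norm_integral_le_of_norm_le_const (Eventually.of_forall fun x =>
        (norm_fourier m _).le)).trans (by simp)
  rw [e1, e2, ← integral_sub hF1 hG1]
  refine (norm_integral_le_of_norm_le_const (C := 2 * Real.pi * |(m : ℝ)| / 2 ^ R)
    (Eventually.of_forall fun y => ?_)).trans (by simp)
  have i1 : Integrable (fun x : Tor => (fourier m ((2 ^ i : ℕ) • (x + y)) : ℂ)) μ :=
    Integrable.of_bound (C := 1) ((hF.comp (measurable_const.prodMk measurable_id :
      Measurable fun x : Tor => (y, x))).aestronglyMeasurable)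
      (Eventually.of_forall fun x => (norm_fourier m _).le)
  have i2 : Integrable (fun x : Tor => (fourier m ((2 ^ i : ℕ) • rep K (idx K (x + y))) : ℂ)) μ :=
    Integrable.of_bound (C := 1) ((hG.comp (measurable_const.prodMk measurable_id :
      Measurable fun x : Tor => (y, x))).aestronglyMeasurable)
      (Eventually.of_forall fun x => (norm_fourier m _).le)
  show ‖(∫ x, (fourier m ((2 ^ i : ℕ) • (x + y)) : ℂ) ∂μ) -
    ∫ x, (fourier m ((2 ^ i : ℕ) • rep K (idx K (x + y))) : ℂ) ∂μ‖ ≤ _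
  rw [← integral_sub i1 i2]
  exact (norm_integral_le_of_norm_le_const (Eventually.of_forall fun x =>
    char_cell m K i R hi (x + y))).trans (by simp)

/-- close laws of the cell of `X + Y` give close means of the characters of `2 ^ i Y` -/
theorem zoom_mean {μ : Measure Tor} [IsProbabilityMeasure μ]
    (h2 : MeasurePreserving (fun x : Tor => (2 : ℕ) • x) μ μ) (m : ℤ) (K i R : ℕ)
    (hi : i + R ≤ K) (la ν : Measure Tor) [IsProbabilityMeasure la] [IsProbabilityMeasure ν] (ξ : ℝ)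
    (hξ : ∑ j ∈ Finset.range (2 ^ K), |(∫ y, μ.real {x | idx K (x + y) = j} ∂la) -
      ∫ y, μ.real {x | idx K (x + y) = j} ∂ν| ≤ ξ) :
    ‖∫ x, (fourier m x : ℂ) ∂μ‖ * ‖(∫ y, (fourier m ((2 ^ i : ℕ) • y) : ℂ) ∂la) -
      ∫ y, (fourier m ((2 ^ i : ℕ) • y) : ℂ) ∂ν‖ ≤ ξ + 4 * Real.pi * |(m : ℝ)| / 2 ^ R := by
  have h3 := mean_close h2 m K i R hi la
  have h4 := mean_close h2 m K i R hi ν
  set a : ℂ := ∫ x, (fourier m x : ℂ) ∂μ with ha
  set u : ℂ := ∫ y, (fourier m ((2 ^ i : ℕ) • y) : ℂ) ∂la with hu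
  set v : ℂ := ∫ y, (fourier m ((2 ^ i : ℕ) • y) : ℂ) ∂ν with hv
  set s : ℂ := ∑ j ∈ Finset.range (2 ^ K), ((∫ y, μ.real {x | idx K (x + y) = j} ∂la : ℝ) : ℂ) *
        fourier m ((2 ^ i : ℕ) • rep K j) with hs
  set t : ℂ := ∑ j ∈ Finset.range (2 ^ K), ((∫ y, μ.real {x | idx K (x + y) = j} ∂ν : ℝ) : ℂ) *
        fourier m ((2 ^ i : ℕ) • rep K j) with ht
  have h5 : ‖s - t‖ ≤ ξ := by
    rw [hs, ht, ← Finset.sum_sub_distrib]
    refine (norm_sum_le _ _).trans (le_trans (Finset.sum_le_sum fun j _ => ?_) hξ)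
    rw [← sub_mul, norm_mul, norm_fourier, mul_one, ← Complex.ofReal_sub, Complex.norm_real,
      Real.norm_eq_abs]
  have h6 : a * (u - v) = (a * u - s) + (s - t) - (a * v - t) := by ring
  calc ‖a‖ * ‖u - v‖ = ‖a * (u - v)‖ := (norm_mul _ _).symm
    _ = ‖(a * u - s) + (s - t) - (a * v - t)‖ := by rw [h6]
    _ ≤ ‖(a * u - s) + (s - t)‖ + ‖a * v - t‖ := norm_sub_le _ _
    _ ≤ (‖a * u - s‖ + ‖s - t‖) + ‖a * v - t‖ := by
        gcongr
        exact norm_add_le _ _
    _ ≤ (2 * Real.pi * |(m : ℝ)| / 2 ^ R + ξ) + 2 * Real.pi * |(m : ℝ)| / 2 ^ R := by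
        gcongr
    _ = ξ + 4 * Real.pi * |(m : ℝ)| / 2 ^ R := by ring

/-- integrals for the conditional measure -/
theorem integral_cond {E : Type*} [NormedAddCommGroup E] [NormedSpace ℝ E] (ν : Measure Tor)
    (A : Set Tor) (f : Tor → E) :
    ∫ y, f y ∂(ProbabilityTheory.cond ν A) = (ν.real A)⁻¹ • ∫ y in A, f y ∂ν := by
  unfold ProbabilityTheory.cond
  rw [integral_smul_measure, ENNReal.toReal_inv]
  rfl

/-- a half plane which avoids the mean has small mass -/
theorem half_plane {μ : Measure Tor} [IsProbabilityMeasure μ]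
    (h2 : MeasurePreserving (fun x : Tor => (2 : ℕ) • x) μ μ) (m : ℤ) (K i R : ℕ)
    (hi : i + R ≤ K) (ν : Measure Tor) [IsProbabilityMeasure ν] (g ξ κ : ℝ) (hg : 0 < g)
    (hκ : ξ + 4 * Real.pi * |(m : ℝ)| / 2 ^ R < ‖∫ x, (fourier m x : ℂ) ∂μ‖ * (κ / 2))
    (H : ∀ A : Set Tor, MeasurableSet A → g ≤ ν.real A →
      ∑ j ∈ Finset.range (2 ^ K), |(∫ y in A, μ.real {x | idx K (x + y) = j} ∂ν) / ν.real A -
        ∫ y, μ.real {x | idx K (x + y) = j} ∂ν| ≤ ξ) (ω : ℂ) (hω : ‖ω‖ = 1) :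
    ν.real {y | κ / 2 < (ω * ((fourier m ((2 ^ i : ℕ) • y) : ℂ) -
      ∫ y', (fourier m ((2 ^ i : ℕ) • y') : ℂ) ∂ν)).re} < g := by
  by_contra hlt
  rw [not_lt] at hlt
  set w : ℂ := ∫ y', (fourier m ((2 ^ i : ℕ) • y') : ℂ) ∂ν with hw
  set A : Set Tor := {y | κ / 2 < (ω * ((fourier m ((2 ^ i : ℕ) • y) : ℂ) - w)).re} with hA
  have hAm : MeasurableSet A := by
    refine measurableSet_lt measurable_const ?_
    exact Complex.measurable_re.comp (measurable_const.mul ((measurable_char m i).sub measurable_const))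
  have hA0 : 0 < ν.real A := hg.trans_le hlt
  have hA1 : ν A ≠ 0 := by
    intro h
    rw [measureReal_def, h] at hA0
    simp at hA0
  have hprob : IsProbabilityMeasure (ProbabilityTheory.cond ν A) :=
    ProbabilityTheory.cond_isProbabilityMeasure hA1
  have h3 := zoom_mean h2 m K i R hi (ProbabilityTheory.cond ν A) ν ξ (by
    refine le_trans (le_of_eq ?_) (H A hAm hlt)
    refine Finset.sum_congr rfl fun j _ => ?_
    rw [integral_cond, smul_eq_mul, inv_mul_eq_div])
  rw [← hw] at h3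
  have hint : Integrable (fun y : Tor => (fourier m ((2 ^ i : ℕ) • y) : ℂ))
      (ProbabilityTheory.cond ν A) := integrable_char m i _
  have e1 : (∫ y, (fourier m ((2 ^ i : ℕ) • y) : ℂ) ∂(ProbabilityTheory.cond ν A)) - w =
      ∫ y, ((fourier m ((2 ^ i : ℕ) • y) : ℂ) - w) ∂(ProbabilityTheory.cond ν A) := by
    rw [integral_sub hint (integrable_const w)]
    simp
  have h4 : κ / 2 ≤ ‖(∫ y, (fourier m ((2 ^ i : ℕ) • y) : ℂ) ∂(ProbabilityTheory.cond ν A)) - w‖ := by
    have h5 : κ / 2 ≤ (ω * ∫ y, ((fourier m ((2 ^ i : ℕ) • y) : ℂ) - w)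
        ∂(ProbabilityTheory.cond ν A)).re := by
      rw [← integral_const_mul]
      have h6 : (∫ y, ω * ((fourier m ((2 ^ i : ℕ) • y) : ℂ) - w) ∂(ProbabilityTheory.cond ν A)).re =
          ∫ y, (ω * ((fourier m ((2 ^ i : ℕ) • y) : ℂ) - w)).re ∂(ProbabilityTheory.cond ν A) := by
        have := integral_re (𝕜 := ℂ) ((hint.sub (integrable_const w)).const_mul ω)
        exact this.symm
      rw [h6]
      have h7 : ∀ᵐ y ∂(ProbabilityTheory.cond ν A),
          κ / 2 ≤ (ω * ((fourier m ((2 ^ i : ℕ) • y) : ℂ) - w)).re := by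
        have h8 : ∀ᵐ y ∂(ProbabilityTheory.cond ν A), y ∈ A := by
          rw [ae_iff]
          have : {a | a ∉ A} = Aᶜ := rfl
          rw [this, ProbabilityTheory.cond_apply hAm]
          simp
        filter_upwards [h8] with y hy
        exact le_of_lt hy
      have h9 := integral_mono_ae (integrable_const (κ / 2))
        (((hint.sub (integrable_const w)).const_mul ω).re) h7
      simpa using h9
    rw [e1]
    calc κ / 2 ≤ _ := h5
      _ ≤ ‖ω * ∫ y, ((fourier m ((2 ^ i : ℕ) • y) : ℂ) - w) ∂(ProbabilityTheory.cond ν A)‖ :=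
          Complex.re_le_norm _
      _ = _ := by rw [norm_mul, hω, one_mul]
  have h5 := mul_le_mul_of_nonneg_left h4 (norm_nonneg (∫ x, (fourier m x : ℂ) ∂μ))
  linarith

/-- **Zoom lemma.** -/
theorem zoom {μ : Measure Tor} [IsProbabilityMeasure μ]
    (h2 : MeasurePreserving (fun x : Tor => (2 : ℕ) • x) μ μ) (m : ℤ) (K i R : ℕ)
    (hi : i + R ≤ K) (ν : Measure Tor) [IsProbabilityMeasure ν] (g ξ κ : ℝ) (hg : 0 < g)
    (hκ : ξ + 4 * Real.pi * |(m : ℝ)| / 2 ^ R < ‖∫ x, (fourier m x : ℂ) ∂μ‖ * (κ / 2))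
    (H : ∀ A : Set Tor, MeasurableSet A → g ≤ ν.real A →
      ∑ j ∈ Finset.range (2 ^ K), |(∫ y in A, μ.real {x | idx K (x + y) = j} ∂ν) / ν.real A -
        ∫ y, μ.real {x | idx K (x + y) = j} ∂ν| ≤ ξ) :
    ν.real {y | κ < ‖(fourier m ((2 ^ i : ℕ) • y) : ℂ) -
      ∫ y', (fourier m ((2 ^ i : ℕ) • y') : ℂ) ∂ν‖} ≤ 4 * g := by
  set w : ℂ := ∫ y', (fourier m ((2 ^ i : ℕ) • y') : ℂ) ∂ν with hw
  have hh := fun ω hω => half_plane h2 m K i R hi ν g ξ κ hg hκ H ω hω
  have a1 := hh 1 (by simp)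
  have a2 := hh (-1) (by simp)
  have a3 := hh Complex.I (by simp)
  have a4 := hh (-Complex.I) (by simp)
  rw [← hw] at a1 a2 a3 a4
  set A : ℂ → Set Tor := fun ω => {y | κ / 2 < (ω * ((fourier m ((2 ^ i : ℕ) • y) : ℂ) - w)).re}
    with hA
  have hsub : {y | κ < ‖(fourier m ((2 ^ i : ℕ) • y) : ℂ) - w‖} ⊆
      (A 1 ∪ A (-1)) ∪ (A Complex.I ∪ A (-Complex.I)) := by
    intro y hy
    have hy' : κ < ‖(fourier m ((2 ^ i : ℕ) • y) : ℂ) - w‖ := hy
    set z : ℂ := (fourier m ((2 ^ i : ℕ) • y) : ℂ) - w with hz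
    have h3 := Complex.norm_le_abs_re_add_abs_im z
    have h4 : κ / 2 < |z.re| ∨ κ / 2 < |z.im| := by
      by_contra hcon
      push Not at hcon
      linarith [hcon.1, hcon.2]
    rcases h4 with h4 | h4
    · left
      rcases lt_abs.1 h4 with h5 | h5
      · left
        show κ / 2 < (1 * z).re
        rw [one_mul]
        exact h5
      · right
        show κ / 2 < (-1 * z).re
        simpa using h5
    · right
      rcases lt_abs.1 h4 with h5 | h5
      · right
        show κ / 2 < (-Complex.I * z).re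
        simpa using h5
      · left
        show κ / 2 < (Complex.I * z).re
        simpa using h5
  have b0 := measureReal_mono (μ := ν) hsub (measure_ne_top ν _)
  have b1 := measureReal_union_le (μ := ν) (A 1 ∪ A (-1)) (A Complex.I ∪ A (-Complex.I))
  have b2 := measureReal_union_le (μ := ν) (A 1) (A (-1))
  have b3 := measureReal_union_le (μ := ν) (A Complex.I) (A (-Complex.I))
  have c1 : ν.real (A 1) < g := a1
  have c2 : ν.real (A (-1)) < g := a2
  have c3 : ν.real (A Complex.I) < g := a3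
  have c4 : ν.real (A (-Complex.I)) < g := a4
  linarith

end Helper25.AG
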