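import Mathlib
import Pool.Agent.Helper75.AG.PopUnif
import Pool.Agent.Helper88.AG.Sep
import Pool.Agent.Helper25.AG.Zoom
import Pool.Agent.Helper17.TranslM

/-!
# Measures close to Lebesgue measure have almost no growth

A probability measure on the circle whose first Fourier coefficients are small has almost the
maximal entropy at a fixed scale.
-/

set_option autoImplicit false

open MeasureTheory Filter Topology Finset

namespace Helper25.AG

open Helper35.AG

instance prob_volume : IsProbabilityMeasure (volume : Measure Tor) :=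
  ⟨by rw [AddCircle.measure_univ]; simp⟩

theorem integral_fourier_volume {m : ℤ} (hm : m ≠ 0) :
    ∫ x : Tor, (fourier m x : ℂ) ∂(volume : Measure Tor) = 0 :=
  integral_eq_zero_of_add_right_eq_neg (μ := (volume : Measure Tor))
    (fourier_add_half_inv_index hm one_pos)

theorem eq_volume {μ : Measure Tor} [IsProbabilityMeasure μ]
    (h : ∀ m : ℤ, 1 ≤ m → ∫ x, (fourier m x : ℂ) ∂μ = 0) : μ = volume := by
  apply Helper17.TranslM.eq_of_fourier
  intro m
  rcases lt_trichotomy m 0 with hm | hm | hm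
  · have e : ∀ x : Tor, (fourier m x : ℂ) = star (fourier (-m) x : ℂ) := by
      intro x
      rw [fourier_neg, RCLike.star_def, Complex.conj_conj]
    rw [integral_fourier_volume hm.ne]
    calc ∫ x, (fourier m x : ℂ) ∂μ = ∫ x, star (fourier (-m) x : ℂ) ∂μ :=
          integral_congr_ae (Eventually.of_forall e)
      _ = star (∫ x, (fourier (-m) x : ℂ) ∂μ) := by
          simp only [RCLike.star_def]
          exact integral_conj
      _ = 0 := by rw [h (-m) (by omega), star_zero]
  · subst hm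
    simp
  · rw [h m (by omega), integral_fourier_volume hm.ne']

/-- closed sets are not much bigger than for Lebesgue measure -/
theorem closed_near {F : Set Tor} (hF : IsClosed F) {ε : ℝ} (hε : 0 < ε) :
    ∃ n : ℕ, ∀ μ : Measure Tor, IsProbabilityMeasure μ →
      (∀ m : ℤ, 1 ≤ m → m ≤ n → ‖∫ x, (fourier m x : ℂ) ∂μ‖ < 1 / ((n : ℝ) + 1)) →
      μ.real F < (volume : Measure Tor).real F + ε := by
  by_contra hcon
  push Not at hcon
  choose μ hμp h1 h2 using hcon
  set M : ℕ → ProbabilityMeasure Tor := fun n => ⟨μ n, hμp n⟩ with hM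
  obtain ⟨μ0, -, φ, hφ, hlim⟩ := isCompact_univ.tendsto_subseq (x := M)
    (fun n => Set.mem_univ _)
  have hvol : (μ0 : Measure Tor) = volume := by
    apply eq_volume
    intro m hm
    have ht := Helper75.AG.tendsto_fourier hlim m
    have h0 : Tendsto (fun k => ∫ x, fourier m x ∂((M ∘ φ) k : Measure Tor)) atTop (𝓝 0) := by
      rw [tendsto_zero_iff_norm_tendsto_zero]
      have h3 : Tendsto (fun k : ℕ => 1 / (((φ k : ℕ) : ℝ) + 1)) atTop (𝓝 0) :=
        tendsto_one_div_add_atTop_nhds_zero_nat.comp hφ.tendsto_atTop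
      refine squeeze_zero' (Eventually.of_forall fun k => norm_nonneg _) ?_ h3
      filter_upwards [hφ.tendsto_atTop.eventually_ge_atTop m.toNat] with k hk
      exact (h1 (φ k) m hm (by omega)).le
    exact tendsto_nhds_unique ht h0
  have hc : (μ0 : Measure Tor).real F < (volume : Measure Tor).real F + ε := by
    rw [hvol]
    linarith
  obtain ⟨k, hk⟩ := (Pool.Agent.Helper88.AG.eventually_lt hlim hF hc).exists
  exact absurd hk (not_lt.2 (h2 (φ k)))

/-- a cell is contained in a closed ball of the same length -/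
theorem cell_subset (K i : ℕ) :
    {x : Tor | idx K x = i} ⊆
      Metric.closedBall ((((i : ℝ) + 1 / 2) / 2 ^ K : ℝ) : Tor) (1 / 2 / 2 ^ K) := by
  intro x hx
  obtain ⟨u, hu0, hu1, rfl, hu⟩ := exists_rep x
  have hx' : idx K (u : Tor) = i := hx
  rw [hu K] at hx'
  have h2 : (0 : ℝ) < 2 ^ K := by positivity
  have a1 := Nat.floor_le (a := (2 : ℝ) ^ K * u) (by positivity)
  have a2 := Nat.lt_floor_add_one ((2 : ℝ) ^ K * u)
  rw [hx'] at a1 a2
  have h3 : |u - ((i : ℝ) + 1 / 2) / 2 ^ K| ≤ 1 / 2 / 2 ^ K := by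
    have e : u - ((i : ℝ) + 1 / 2) / 2 ^ K = (2 ^ K * u - (i + 1 / 2)) / 2 ^ K := by
      field_simp
    rw [e, abs_div, abs_of_pos h2]
    gcongr
    rw [abs_le]
    constructor <;> linarith
  rw [Metric.mem_closedBall, dist_eq_norm, ← AddCircle.coe_sub]
  refine le_trans ?_ h3
  rw [AddCircle.norm_eq]
  simp only [inv_one, one_mul, mul_one]
  exact (round_le _ 0).trans (by simp)

theorem volume_ball (K : ℕ) (c : Tor) :
    (volume : Measure Tor).real (Metric.closedBall c (1 / 2 / 2 ^ K)) = 1 / 2 ^ K := by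
  have h2 : (0 : ℝ) < 2 ^ K := by positivity
  have h3 : (1 : ℝ) ≤ 2 ^ K := one_le_pow₀ (by norm_num)
  rw [measureReal_def, AddCircle.volume_closedBall, ENNReal.toReal_ofReal (by positivity),
    min_eq_right]
  · ring
  · rw [show (2 : ℝ) * (1 / 2 / 2 ^ K) = 1 / 2 ^ K by ring, div_le_one h2]
    exact h3

/-- **cells are not much heavier than for Lebesgue measure** -/
theorem cell_near (K : ℕ) {ε : ℝ} (hε : 0 < ε) :
    ∃ n : ℕ, ∀ μ : Measure Tor, IsProbabilityMeasure μ →
      (∀ m : ℤ, 1 ≤ m → m ≤ n → ‖∫ x, (fourier m x : ℂ) ∂μ‖ < 1 / ((n : ℝ) + 1)) →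
      ∀ i < 2 ^ K, μ.real {x | idx K x = i} < 1 / 2 ^ K + ε := by
  have H : ∀ i : ℕ, ∃ n : ℕ, ∀ μ : Measure Tor, IsProbabilityMeasure μ →
      (∀ m : ℤ, 1 ≤ m → m ≤ n → ‖∫ x, (fourier m x : ℂ) ∂μ‖ < 1 / ((n : ℝ) + 1)) →
      μ.real {x | idx K x = i} < 1 / 2 ^ K + ε := by
    intro i
    obtain ⟨n, hn⟩ := closed_near (F := Metric.closedBall ((((i : ℝ) + 1 / 2) / 2 ^ K : ℝ) : Tor)
      (1 / 2 / 2 ^ K)) Metric.isClosed_closedBall hε
    refine ⟨n, fun μ hμ h => ?_⟩
    have h1 := hn μ hμ h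
    rw [volume_ball] at h1
    exact (measureReal_mono (cell_subset K i) (measure_ne_top _ _)).trans_lt h1
  choose n hn using H
  refine ⟨(range (2 ^ K)).sup n, fun μ hμ h i hi => ?_⟩
  have hle : n i ≤ (range (2 ^ K)).sup n := Finset.le_sup (Finset.mem_range.2 hi)
  refine hn i μ hμ fun m hm1 hm2 => ?_
  refine (h m hm1 (hm2.trans (by exact_mod_cast hle))).trans_le ?_
  have : (n i : ℝ) ≤ ((range (2 ^ K)).sup n : ℕ) := by exact_mod_cast hle
  gcongr

/-- **cells have almost the mass they have for Lebesgue measure** -/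
theorem cell_near_abs (K : ℕ) {ε : ℝ} (hε : 0 < ε) :
    ∃ n : ℕ, ∀ μ : Measure Tor, IsProbabilityMeasure μ →
      (∀ m : ℤ, 1 ≤ m → m ≤ n → ‖∫ x, (fourier m x : ℂ) ∂μ‖ < 1 / ((n : ℝ) + 1)) →
      ∀ i < 2 ^ K, |μ.real {x | idx K x = i} - 1 / 2 ^ K| < ε := by
  have h2 : (0 : ℝ) < 2 ^ K := by positivity
  obtain ⟨n, hn⟩ := cell_near K (ε := ε / 2 ^ K) (by positivity)
  refine ⟨n, fun μ hμ h i hi => ?_⟩
  have h1 := hn μ hμ h
  have hs := sum_cells μ K
  have hle : ε / 2 ^ K ≤ ε := div_le_self hε.le (one_le_pow₀ (by norm_num))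
  have h3 : ∑ j ∈ (range (2 ^ K)).erase i, μ.real {x | idx K x = j} ≤
      ∑ _j ∈ (range (2 ^ K)).erase i, (1 / 2 ^ K + ε / 2 ^ K) :=
    Finset.sum_le_sum fun j hj => (h1 j (Finset.mem_range.1 (Finset.mem_of_mem_erase hj))).le
  have hi' : i ∈ range (2 ^ K) := Finset.mem_range.2 hi
  rw [Finset.sum_const, Finset.card_erase_of_mem hi', card_range, nsmul_eq_mul] at h3
  have h4 := Finset.add_sum_erase (range (2 ^ K)) (fun j => μ.real {x | idx K x = j}) hi'
  have h5 : ((2 ^ K - 1 : ℕ) : ℝ) = 2 ^ K - 1 := by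
    rw [Nat.cast_sub Nat.one_le_two_pow]
    push_cast
    ring
  rw [h5] at h3
  have h6 : ((2 : ℝ) ^ K - 1) * (1 / 2 ^ K + ε / 2 ^ K) = 1 - 1 / 2 ^ K + (ε - ε / 2 ^ K) := by
    field_simp
  have h7 : 0 < ε / 2 ^ K := by positivity
  have h8 := h1 i hi
  rw [abs_lt]
  constructor
  · have : μ.real {x | idx K x = i} +
        ∑ j ∈ (range (2 ^ K)).erase i, μ.real {x | idx K x = j} = 1 := h4.trans hs
    linarith
  · linarith

/-- entropy of a measure with light cells -/
theorem ent_ge (μ : Measure Tor) [IsProbabilityMeasure μ] (K : ℕ) {δ : ℝ} (hδ : 0 ≤ δ)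
    (h : ∀ i < 2 ^ K, μ.real {x | idx K x = i} ≤ (1 + δ) / 2 ^ K) :
    K * Real.log 2 - δ ≤ ent μ K := by
  have h2 : (0 : ℝ) < 2 ^ K := by positivity
  have key : ∀ i ∈ range (2 ^ K), μ.real {x | idx K x = i} * (K * Real.log 2 - δ) ≤
      Real.negMulLog (μ.real {x | idx K x = i}) := by
    intro i hi
    have h0 : 0 ≤ μ.real {x | idx K x = i} := measureReal_nonneg
    rcases h0.eq_or_lt with h0 | h0
    · rw [← h0]
      simp
    · unfold Real.negMulLog
      rw [neg_mul, ← mul_neg]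
      refine mul_le_mul_of_nonneg_left ?_ h0.le
      have h3 : Real.log (μ.real {x | idx K x = i}) ≤ Real.log ((1 + δ) / 2 ^ K) :=
        Real.log_le_log h0 (h i (Finset.mem_range.1 hi))
      rw [Real.log_div (by positivity) h2.ne', Real.log_pow] at h3
      have h4 := Real.log_le_sub_one_of_pos (show 0 < 1 + δ by positivity)
      linarith
  have hs := Finset.sum_le_sum key
  rw [← Finset.sum_mul, sum_cells, one_mul] at hs
  exact hs

theorem volume_cell (K : ℕ) {i : ℕ} (hi : i < 2 ^ K) :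
    (volume : Measure Tor).real {x | idx K x = i} = 1 / 2 ^ K := by
  rw [← sub_eq_zero, ← abs_eq_zero]
  refine le_antisymm (le_of_forall_pos_lt_add fun ε hε => ?_) (abs_nonneg _)
  obtain ⟨n, hn⟩ := cell_near_abs K hε
  rw [zero_add]
  refine hn volume inferInstance (fun m hm _ => ?_) i hi
  rw [integral_fourier_volume (by omega), norm_zero]
  positivity

theorem ent_volume (K : ℕ) : ent (volume : Measure Tor) K = K * Real.log 2 := by
  have h2 : (0 : ℝ) < 2 ^ K := by positivity
  unfold ent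
  rw [Finset.sum_congr rfl fun i hi => by rw [volume_cell K (Finset.mem_range.1 hi)],
    Finset.sum_const, card_range, nsmul_eq_mul]
  unfold Real.negMulLog
  rw [one_div, Real.log_inv, Real.log_pow]
  push_cast
  field_simp

theorem conv_volume (μ : Measure Tor) [IsProbabilityMeasure μ] : conv μ volume = volume := by
  apply eq_volume
  intro m hm
  have hm' : Measurable fun p : Tor × Tor => p.1 + p.2 := by fun_prop
  unfold conv
  rw [integral_map hm'.aemeasurable (fourier m).continuous.aestronglyMeasurable]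
  have e : ∀ p : Tor × Tor, (fourier m (p.1 + p.2) : ℂ) = fourier m p.1 * fourier m p.2 :=
    fun p => Helper58.FH.fourier_add_arg m p.1 p.2
  simp_rw [e]
  rw [integral_prod_mul (fun x : Tor => (fourier m x : ℂ)) (fun x : Tor => (fourier m x : ℂ)),
    integral_fourier_volume (by omega), mul_zero]

/-- **Measures with small Fourier coefficients gain little entropy from Lebesgue measure.** -/
theorem growth_near (K : ℕ) {ε : ℝ} (hε : 0 < ε) :
    ∃ n : ℕ, ∀ μ : Measure Tor, IsProbabilityMeasure μ →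
      (∀ m : ℤ, 1 ≤ m → m ≤ n → ‖∫ x, (fourier m x : ℂ) ∂μ‖ < 1 / ((n : ℝ) + 1)) →
      ent (conv μ volume) K - ent μ K ≤ ε := by
  have h2 : (0 : ℝ) < 2 ^ K := by positivity
  obtain ⟨n, hn⟩ := cell_near K (ε := ε / 2 ^ K) (by positivity)
  refine ⟨n, fun μ hμ h => ?_⟩
  rw [conv_volume, ent_volume]
  have h1 := ent_ge μ K hε.le fun i hi => by
    rw [add_div]
    exact (hn μ hμ h i hi).le
  linarith

/-- Lebesgue measure is spread -/
theorem volume_spread {η : ℝ} (hη : 0 < η) :
    ∃ K : ℕ, ∀ i < 2 ^ K, (volume : Measure Tor).real {x | idx K x = i} ≤ η := by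
  obtain ⟨K, hK⟩ := exists_pow_lt_of_lt_one hη (show (1 / 2 : ℝ) < 1 by norm_num)
  refine ⟨K, fun i hi => ?_⟩
  rw [volume_cell K hi]
  rw [div_pow, one_pow] at hK
  exact hK.le

/-- **Form used for traces**: if every measure of a family gains more than `C > 0` from every
spread measure then some Fourier coefficient of bounded order is bounded below on the family. -/
theorem coeff_of_growth {C η : ℝ} (hC : 0 < C) (hη : 0 < η) :
    ∃ n : ℕ, ∀ μ : Measure Tor, IsProbabilityMeasure μ →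
      (∀ (ν : Measure Tor) (K : ℕ), IsProbabilityMeasure ν →
        (∀ i < 2 ^ K, ν.real {x | idx K x = i} ≤ η) → C < ent (conv μ ν) K - ent μ K) →
      ∃ m : ℤ, 1 ≤ m ∧ m ≤ n ∧ 1 / ((n : ℝ) + 1) ≤ ‖∫ x, (fourier m x : ℂ) ∂μ‖ := by
  obtain ⟨K, hK⟩ := volume_spread hη
  obtain ⟨n, hn⟩ := growth_near K hC
  refine ⟨n, fun μ hμ h => ?_⟩
  by_contra hcon
  push Not at hcon
  exact absurd (h volume K inferInstance hK) (not_lt.2 (hn μ hμ fun m h1 h2 => hcon m h1 h2))

end Helper25.AG
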